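import Pool.Agent.H590.PL.Stm

set_option autoImplicit false

/-!
# GL: linear invariance (by helper261)
-/

open MeasureTheory Filter Topology Set
open scoped BigOperators ENNReal

namespace Pool.Agent.H261.PL

open H590PL

/-- the linear map -/
noncomputable def TL (a₁ a₂ a₃ a₄ : ℝ) : P2 →ₗ[ℝ] P2 :=
  Matrix.toLin (Module.Basis.finTwoProd ℝ) (Module.Basis.finTwoProd ℝ) !![a₁, a₃; a₂, a₄]

theorem TL_apply (a₁ a₂ a₃ a₄ : ℝ) (x : P2) :
    TL a₁ a₂ a₃ a₄ x = (a₁ * x.1 + a₃ * x.2, a₂ * x.1 + a₄ * x.2) := by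
  unfold TL
  rw [Matrix.toLin_finTwoProd_apply]

theorem TL_det (a₁ a₂ a₃ a₄ : ℝ) : LinearMap.det (TL a₁ a₂ a₃ a₄) = a₁ * a₄ - a₂ * a₃ := by
  unfold TL
  rw [LinearMap.det_toLin, Matrix.det_fin_two_of]
  ring

theorem TL_inj {a₁ a₂ a₃ a₄ : ℝ} (h : a₁ * a₄ - a₂ * a₃ ≠ 0) :
    Function.Injective (TL a₁ a₂ a₃ a₄) := by
  intro x y hxy
  rw [TL_apply, TL_apply, Prod.mk.injEq] at hxy
  obtain ⟨h1, h2⟩ := hxy
  have e1 : (a₁ * a₄ - a₂ * a₃) * (x.1 - y.1) = 0 := by linear_combination a₄ * h1 - a₃ * h2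
  have e2 : (a₁ * a₄ - a₂ * a₃) * (x.2 - y.2) = 0 := by linear_combination a₁ * h2 - a₂ * h1
  have e3 := (mul_eq_zero.1 e1).resolve_left h
  have e4 := (mul_eq_zero.1 e2).resolve_left h
  exact Prod.ext (by linarith) (by linarith)

theorem cov {a₁ a₂ a₃ a₄ : ℝ} (h : a₁ * a₄ - a₂ * a₃ ≠ 0) (g : P2 → ℝ) :
    ∫ x : P2, g (TL a₁ a₂ a₃ a₄ x) = |a₁ * a₄ - a₂ * a₃|⁻¹ * ∫ x : P2, g x := by
  have hc : Continuous (TL a₁ a₂ a₃ a₄) := LinearMap.continuous_of_finiteDimensional _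
  have he : MeasurableEmbedding (TL a₁ a₂ a₃ a₄) :=
    hc.measurable.measurableEmbedding (TL_inj h)
  have hd : LinearMap.det (TL a₁ a₂ a₃ a₄) ≠ 0 := by rw [TL_det]; exact h
  have hm := MeasureTheory.Measure.map_linearMap_addHaar_eq_smul_addHaar
    (volume : Measure P2) hd
  rw [← he.integral_map, hm, integral_smul_measure, TL_det, smul_eq_mul, abs_inv,
    ENNReal.toReal_ofReal (by positivity)]

theorem gl : S_GL := by
  intro κ _ p _ _ v b a₁ a₂ a₃ a₄ h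
  have hip : ∀ (k : κ) (x : P2),
      ip ((fun k => (a₁ * (v k).1 + a₂ * (v k).2, a₃ * (v k).1 + a₄ * (v k).2)) k) x
        = ip (v k) (TL a₁ a₂ a₃ a₄ x) := by
    intro k x
    rw [TL_apply]
    unfold ip
    ring
  have hdt : ∀ i j : κ,
      dt ((fun k => (a₁ * (v k).1 + a₂ * (v k).2, a₃ * (v k).1 + a₄ * (v k).2)) i)
        ((fun k => (a₁ * (v k).1 + a₂ * (v k).2, a₃ * (v k).1 + a₄ * (v k).2)) j)
        = (a₁ * a₄ - a₂ * a₃) * dt (v i) (v j) := by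
    intro i j
    unfold dt
    ring
  have hPh : ∀ x : P2,
      Ph p (fun k => (a₁ * (v k).1 + a₂ * (v k).2, a₃ * (v k).1 + a₄ * (v k).2)) b x
        = Ph p v b (TL a₁ a₂ a₃ a₄ x) := by
    intro x
    unfold Ph
    refine Finset.sum_congr rfl fun k _ => ?_
    rw [hip]
  have hDD : ∀ x : P2,
      DD p (fun k => (a₁ * (v k).1 + a₂ * (v k).2, a₃ * (v k).1 + a₄ * (v k).2)) b x
        = (a₁ * a₄ - a₂ * a₃) ^ 2 * DD p v b (TL a₁ a₂ a₃ a₄ x) := by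
    intro x
    unfold DD
    have hs : (∑ i, ∑ j,
        dt ((fun k => (a₁ * (v k).1 + a₂ * (v k).2, a₃ * (v k).1 + a₄ * (v k).2)) i)
          ((fun k => (a₁ * (v k).1 + a₂ * (v k).2, a₃ * (v k).1 + a₄ * (v k).2)) j) ^ 2 *
        (p * b i * |ip ((fun k => (a₁ * (v k).1 + a₂ * (v k).2, a₃ * (v k).1 + a₄ * (v k).2)) i) x|
          ^ (p - 2)) *
        (p * b j * |ip ((fun k => (a₁ * (v k).1 + a₂ * (v k).2, a₃ * (v k).1 + a₄ * (v k).2)) j) x|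
          ^ (p - 2)))
        = (a₁ * a₄ - a₂ * a₃) ^ 2 * ∑ i, ∑ j, dt (v i) (v j) ^ 2 *
          (p * b i * |ip (v i) (TL a₁ a₂ a₃ a₄ x)| ^ (p - 2)) *
          (p * b j * |ip (v j) (TL a₁ a₂ a₃ a₄ x)| ^ (p - 2)) := by
      rw [Finset.mul_sum]
      refine Finset.sum_congr rfl fun i _ => ?_
      rw [Finset.mul_sum]
      refine Finset.sum_congr rfl fun j _ => ?_
      rw [hdt, hip, hip]
      ring
    rw [hs]
    ring
  constructor
  · unfold FF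
    simp only [hPh]
    exact cov h fun x => Real.exp (-(Ph p v b x))
  · unfold AA
    simp only [hPh, hDD]
    have e : ∀ x : P2, Real.exp (-(Ph p v b (TL a₁ a₂ a₃ a₄ x))) *
        ((a₁ * a₄ - a₂ * a₃) ^ 2 * DD p v b (TL a₁ a₂ a₃ a₄ x))
        = (a₁ * a₄ - a₂ * a₃) ^ 2 *
          ((fun y => Real.exp (-(Ph p v b y)) * DD p v b y) (TL a₁ a₂ a₃ a₄ x)) := by
      intro x
      simp only
      ring
    have e2 := cov h (fun y => Real.exp (-(Ph p v b y)) * DD p v b y)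
    simp only [e]
    rw [integral_const_mul]
    rw [e2]
    have habs : 0 < |a₁ * a₄ - a₂ * a₃| := abs_pos.2 h
    rw [← sq_abs (a₁ * a₄ - a₂ * a₃)]
    field_simp

end Pool.Agent.H261.PL
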